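import Mathlib
import Pool.Agent.H137Z.WeakContr

open scoped NNReal

namespace Pool.Agent.Results.MP_e93574_an.AFixedPoint

/-- The class Gamma: continuous, nondecreasing, subadditive self-maps of the half-line whose only
zero is 0. -/
def InGamma (γ : ℝ≥0 → ℝ≥0) : Prop :=
  Continuous γ ∧ Monotone γ ∧ (∀ s t, γ (s + t) ≤ γ s + γ t) ∧ γ ⁻¹' {0} = {0}

/-- The class A of Amini-Harandi. -/
def InA (θ : ℝ≥0 → ℝ≥0) : Prop :=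
  ∃ ε₀ : ℝ≥0, 0 < ε₀ ∧ ∃ γ : ℝ≥0 → ℝ≥0, InGamma γ ∧ ∀ t, θ t ≤ ε₀ → γ t ≤ θ t

theorem result {X : Type*} [MetricSpace X] [CompleteSpace X] [Nonempty X]
    (θ : ℝ≥0 → ℝ≥0) (hθ : InA θ) (T : X → Set X)
    (hT : ∀ x, (T x).Nonempty ∧ IsClosed (T x) ∧ Bornology.IsBounded (T x))
    (hcon : ∀ x y, Metric.hausdorffDist (T x) (T y) ≤ dist x y - (θ (nndist x y) : ℝ)) :
    ∃ x, x ∈ T x := by
  obtain ⟨ε₀, hε, γ, ⟨_, hm, hs, hz⟩, h⟩ := hθ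
  exact Pool.Agent.H137Z.WeakContr.main θ γ ε₀ hε hm hs hz h T hT hcon

end Pool.Agent.Results.MP_e93574_an.AFixedPoint
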